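import Mathlib
import Pool.Agent.W22.MF6

/-!
# The spectrum of growth exponents of Weyl sums has positive measure

For every `d ≥ 2` and every `α` with `2/3 < α < 1`, the set of `x ∈ [0,1)^d` whose Weyl sums have
growth exponent exactly `α` has positive Hausdorff dimension.  Points: `x = (x₁, ξ, 0, …, 0)`, with
`ξ = ∑ 9^(-n_k)`, `n_{k+1} = ⌈τ n_k⌉`, `τ = 1/(1-α)`, a number of irrationality exponent `τ`, and
`x₁` in a Cantor set of numbers which are close to fractions with denominators `9^(n_k)`.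
-/

set_option autoImplicit false

open Finset Filter MeasureTheory

namespace Pool.Agent.Results.MP_3c4aa6_nt.PositiveSpectrum

/-- The Weyl sum `S_d(x; N) = ∑_{1 ≤ n ≤ N} exp (2 π i (x₁ n + x₂ n² + ⋯ + x_d n^d))`, where the
coordinate `x_j` of the text is `x (j - 1)`. -/
noncomputable def weylSum (d : ℕ) (x : Fin d → ℝ) (N : ℕ) : ℂ :=
  ∑ n ∈ Finset.Icc 1 N, Complex.exp (2 * (Real.pi : ℂ) * Complex.I *
    ∑ j : Fin d, (x j : ℂ) * (n : ℂ) ^ ((j : ℕ) + 1))

/-- The growth exponent `σ(x) = limsup_{N → ∞} log |S_d(x; N)| / log N`. -/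
noncomputable def sigma (d : ℕ) (x : Fin d → ℝ) : ℝ :=
  Filter.limsup (fun N : ℕ => Real.log ‖weylSum d x N‖ / Real.log N) Filter.atTop

/-- The level set `Ω_α` of the growth exponent inside `[0,1)^d`. -/
def Omega (d : ℕ) (α : ℝ) : Set (Fin d → ℝ) :=
  {x | (∀ j, x j ∈ Set.Ico (0 : ℝ) 1) ∧ sigma d x = α}

open Pool.Agent.W22.MF

/-- the point attached to the parameter `t` -/
noncomputable def pt (m : ℕ) (τ t : ℝ) : Fin (m + 2) → ℝ :=
  Fin.cons (num τ (dg τ t)) (Fin.cons (xi τ) (fun _ => 0))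

lemma weylSum_pt (m : ℕ) (τ t : ℝ) (N : ℕ) :
    weylSum (m + 2) (pt m τ t) N = S (num τ (dg τ t)) (xi τ) N := by
  unfold weylSum S
  induction N with
  | zero => simp
  | succ N ih =>
      rw [Finset.sum_Icc_succ_top (by omega), sum_range_succ, ih]
      congr 1
      unfold ee
      congr 1
      rw [Fin.sum_univ_succ, Fin.sum_univ_succ]
      have h0 : pt m τ t 0 = num τ (dg τ t) := rfl
      have h1 : pt m τ t (Fin.succ 0) = xi τ := rfl
      have h2 : ∀ i : Fin m, pt m τ t (Fin.succ (Fin.succ i)) = 0 := fun _ => rfl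
      simp only [h0, h1, h2]
      simp
      ring

lemma pt_mem {α : ℝ} (hα : α ∈ Set.Ioo (2 / 3 : ℝ) 1) (m : ℕ) {t : ℝ}
    (ht : t ∈ Set.Ico (0 : ℝ) 1) : pt m (1 / (1 - α)) t ∈ Omega (m + 2) α := by
  have h1α : 0 < 1 - α := by linarith [hα.2]
  have hτ : 3 < 1 / (1 - α) := by
    rw [lt_div_iff₀ h1α]; linarith [hα.1]
  refine ⟨?_, ?_⟩
  · intro j
    refine Fin.cases ?_ (fun j => Fin.cases ?_ (fun j => ?_) j) j
    · exact num_mem hτ _ (dg_le ht)
    · exact num_mem hτ _ (one_le_two_pow _)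
    · show (0 : ℝ) ∈ Set.Ico (0 : ℝ) 1
      constructor <;> norm_num
  · unfold sigma
    simp_rw [weylSum_pt]
    rw [growth_eq hτ _ (dg_le ht)]
    field_simp
    ring

lemma dimH_Omega_pos {α : ℝ} (hα : α ∈ Set.Ioo (2 / 3 : ℝ) 1) (m : ℕ) :
    0 < dimH (Omega (m + 2) α) := by
  have h1α : 0 < 1 - α := by linarith [hα.2]
  set τ : ℝ := 1 / (1 - α) with hτdef
  have hτ : 3 < τ := by
    rw [hτdef, lt_div_iff₀ h1α]; linarith [hα.1]
  have hτ0 : 0 < τ := by linarith
  set E : Set (Fin (m + 2) → ℝ) := (fun t => pt m τ t) '' Set.Ico (0 : ℝ) 1 with hE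
  have hsub : E ⊆ Omega (m + 2) α := by
    rintro _ ⟨t, ht, rfl⟩
    exact pt_mem hα m ht
  -- distance estimate
  have hdist : ∀ t ∈ Set.Ico (0 : ℝ) 1, ∀ t' ∈ Set.Ico (0 : ℝ) 1,
      |t' - t| ≤ 9 * (dist (pt m τ t') (pt m τ t)) ^ (1 / (4 * τ)) := by
    have hlt : ∀ t ∈ Set.Ico (0 : ℝ) 1, ∀ t' ∈ Set.Ico (0 : ℝ) 1, t < t' →
      t' - t ≤ 9 * (dist (pt m τ t') (pt m τ t)) ^ (1 / (4 * τ)) := by
      intro t ht t' ht' h
      refine (separation hτ ht ht' h).trans ?_
      have h1 : num τ (dg τ t') - num τ (dg τ t) ≤ dist (pt m τ t') (pt m τ t) := by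
        have h2 := dist_le_pi_dist (pt m τ t') (pt m τ t) 0
        have h3 : dist (pt m τ t' 0) (pt m τ t 0) = |num τ (dg τ t') - num τ (dg τ t)| := rfl
        rw [h3] at h2
        exact (le_abs_self _).trans h2
      have h0 : 0 ≤ num τ (dg τ t') - num τ (dg τ t) := by
        by_contra hneg
        push Not at hneg
        unfold num at hneg
        have : ∑' k, (dg τ t k : ℝ) / 9 ^ nn τ k ≤ ∑' k, (dg τ t' k : ℝ) / 9 ^ nn τ k := by
          apply (summable_c hτ _ (dg_le ht)).tsum_le_tsum _ (summable_c hτ _ (dg_le ht'))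
          intro k
          apply div_le_div_of_nonneg_right _ (by positivity)
          have : dg τ t k ≤ dg τ t' k := by
            unfold dg
            apply Nat.floor_mono
            have : (0 : ℝ) < 2 ^ nn τ k := by positivity
            nlinarith
          exact_mod_cast this
        linarith
      have h2 : (num τ (dg τ t') - num τ (dg τ t)) ^ (1 / (4 * τ)) ≤
          (dist (pt m τ t') (pt m τ t)) ^ (1 / (4 * τ)) :=
        Real.rpow_le_rpow h0 h1 (by positivity)
      linarith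
    intro t ht t' ht'
    rcases lt_trichotomy t t' with h | h | h
    · rw [abs_of_pos (by linarith)]; exact hlt t ht t' ht' h
    · subst h; simp only [sub_self, abs_zero]; positivity
    · rw [abs_sub_comm, dist_comm, abs_of_pos (by linarith)]; exact hlt t' ht' t ht h
  -- the inverse map
  set f : (Fin (m + 2) → ℝ) → ℝ := Function.invFunOn (fun t => pt m τ t) (Set.Ico (0 : ℝ) 1) with hf
  have hinv1 : ∀ y ∈ E, f y ∈ Set.Ico (0 : ℝ) 1 := fun y hy => Function.invFunOn_mem hy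
  have hinv2 : ∀ y ∈ E, pt m τ (f y) = y := fun y hy => Function.invFunOn_eq hy
  have himg : f '' E = Set.Ico (0 : ℝ) 1 := by
    apply Set.Subset.antisymm
    · rintro _ ⟨y, hy, rfl⟩; exact hinv1 y hy
    · intro t ht
      have hy : pt m τ t ∈ E := ⟨t, ht, rfl⟩
      refine ⟨pt m τ t, hy, ?_⟩
      have h1 := hdist t ht (f (pt m τ t)) (hinv1 _ hy)
      rw [hinv2 _ hy, dist_self, Real.zero_rpow (by positivity), mul_zero] at h1
      have h2 := abs_nonneg (f (pt m τ t) - t)
      have h3 : |f (pt m τ t) - t| = 0 := le_antisymm h1 h2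
      rw [abs_eq_zero] at h3
      linarith
  set r : NNReal := ⟨1 / (4 * τ), by positivity⟩ with hr
  have hr0 : 0 < r := by
    rw [← NNReal.coe_pos, hr]
    show 0 < 1 / (4 * τ)
    positivity
  have hholder : HolderOnWith 9 r f E := by
    intro y hy y' hy'
    rw [edist_dist, edist_dist]
    have h1 := hdist (f y') (hinv1 _ hy') (f y) (hinv1 _ hy)
    rw [hinv2 _ hy, hinv2 _ hy'] at h1
    have h2 : dist (f y) (f y') = |f y - f y'| := rfl
    rw [h2]
    refine (ENNReal.ofReal_le_ofReal h1).trans (le_of_eq ?_)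
    rw [ENNReal.ofReal_mul (by norm_num), ENNReal.ofReal_rpow_of_nonneg dist_nonneg (by positivity)]
    congr 1
    simp
  have hdim := hholder.dimH_image_le hr0
  rw [himg] at hdim
  have hone : dimH (Set.Ico (0 : ℝ) 1) = 1 := by
    have h := Real.dimH_of_nonempty_interior (E := ℝ) (s := Set.Ico (0 : ℝ) 1) (by
      rw [interior_Ico]
      exact ⟨1 / 2, by norm_num, by norm_num⟩)
    simpa using h
  rw [hone] at hdim
  have hEpos : 0 < dimH E := by
    rw [pos_iff_ne_zero]
    intro h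
    rw [h] at hdim
    simp at hdim
  exact hEpos.trans_le (dimH_mono hsub)

/-- **Every `d ≥ 2`: the set of exponents `α` with `dim Ω_α > 0` contains the interval `(2/3, 1)`**,
in particular a set of positive Lebesgue measure. -/
theorem result (d : ℕ) (hd : 2 ≤ d) :
    (∀ α ∈ Set.Ioo (2 / 3 : ℝ) 1, 0 < dimH (Omega d α)) ∧
    ∃ A : Set ℝ, A ⊆ Set.Icc 0 1 ∧ MeasurableSet A ∧ 0 < volume A ∧
      ∀ α ∈ A, 0 < dimH (Omega d α) := by
  obtain ⟨m, rfl⟩ : ∃ m, d = m + 2 := ⟨d - 2, by omega⟩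
  refine ⟨fun α hα => dimH_Omega_pos hα m, Set.Ioo (2 / 3 : ℝ) 1, ?_, measurableSet_Ioo, ?_,
    fun α hα => dimH_Omega_pos hα m⟩
  · intro α hα
    exact ⟨by linarith [hα.1], hα.2.le⟩
  · rw [Real.volume_Ioo]
    norm_num

end Pool.Agent.Results.MP_3c4aa6_nt.PositiveSpectrum
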